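import Mathlib

/-! The propositional ontology `L₁` embeds in Grzegorczyk's modal logic. -/

namespace Pool.Agent.Results.MP_36ff06_lc.Embed

/-- formulas of `L₁`: atoms `ε a b` over name variables, negation and disjunction -/
inductive LF : Type
  | eps (a b : ℕ) : LF
  | neg (φ : LF) : LF
  | or (φ ψ : LF) : LF

def LF.imp (φ ψ : LF) : LF := .or (.neg φ) ψ
def LF.and (φ ψ : LF) : LF := .neg (.or (.neg φ) (.neg ψ))

/-- truth value under an assignment to the atoms -/
def LF.val (v : ℕ → ℕ → Prop) : LF → Prop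
  | .eps a b => v a b
  | .neg φ => ¬ φ.val v
  | .or φ ψ => φ.val v ∨ ψ.val v

/-- provability in `L₁` -/
inductive L1 : LF → Prop
  | taut (φ : LF) : (∀ v, φ.val v) → L1 φ
  | mp (φ ψ : LF) : L1 (φ.imp ψ) → L1 φ → L1 ψ
  | ax1 (a b : ℕ) : L1 ((LF.eps a b).imp (.eps a a))
  | ax2 (a b c : ℕ) : L1 (((LF.eps a b).and (.eps b c)).imp (.eps a c))
  | ax3 (a b c : ℕ) : L1 (((LF.eps a b).and (.eps b c)).imp (.eps b a))

/-- modal formulas -/
inductive MF : Type
  | var (n : ℕ) : MF
  | neg (φ : MF) : MF
  | or (φ ψ : MF) : MF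
  | box (φ : MF) : MF

def MF.imp (φ ψ : MF) : MF := .or (.neg φ) ψ
def MF.and (φ ψ : MF) : MF := .neg (.or (.neg φ) (.neg ψ))
def MF.dia (φ : MF) : MF := .neg (.box (.neg φ))

/-- truth value when variables and boxed formulas are read as propositional atoms -/
def MF.val (v : MF → Prop) : MF → Prop
  | .var n => v (.var n)
  | .neg φ => ¬ φ.val v
  | .or φ ψ => φ.val v ∨ ψ.val v
  | .box φ => v (.box φ)

/-- uniform substitution -/
def MF.subst (σ : ℕ → MF) : MF → MF
  | .var n => σ n
  | .neg φ => .neg (φ.subst σ)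
  | .or φ ψ => .or (φ.subst σ) (ψ.subst σ)
  | .box φ => .box (φ.subst σ)

/-- provability in Grzegorczyk's logic -/
inductive Grz : MF → Prop
  | taut (φ : MF) : (∀ v, φ.val v) → Grz φ
  | axK : Grz ((MF.box ((MF.var 0).imp (.var 1))).imp ((MF.box (.var 0)).imp (.box (.var 1))))
  | axGrz : Grz ((MF.box ((MF.box ((MF.var 0).imp (.box (.var 0)))).imp (.var 0))).imp (.var 0))
  | mp (φ ψ : MF) : Grz (φ.imp ψ) → Grz φ → Grz ψ
  | nec (φ : MF) : Grz φ → Grz (.box φ)
  | sub (σ : ℕ → MF) (φ : MF) : Grz φ → Grz (φ.subst σ)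

/-- the formula `F(x, y) = x ∧ □◇(x → y) ∧ (y → □◇(y → x))` -/
def F (x y : MF) : MF :=
  x.and ((MF.box (x.imp y).dia).and (y.imp (MF.box (y.imp x).dia)))

/-- the translation `t_F`, for a map `p` from name variables to propositional variables -/
def tr (p : ℕ → ℕ) : LF → MF
  | .eps a b => F (.var (p a)) (.var (p b))
  | .neg φ => .neg (tr p φ)
  | .or φ ψ => .or (tr p φ) (tr p ψ)

open MF

theorem pl1 {A B : MF} (h : Grz A) (H : ∀ v, A.val v → B.val v) : Grz B :=
  Grz.mp A B (Grz.taut _ fun v => by simp only [MF.imp, MF.val]; have := H v; tauto) h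

theorem pl2 {A B C : MF} (h : Grz A) (k : Grz B) (H : ∀ v, A.val v → B.val v → C.val v) :
    Grz C :=
  Grz.mp B C (pl1 h fun v => by simp only [MF.imp, MF.val]; have := H v; tauto) k

theorem pl3 {A B C D : MF} (h : Grz A) (k : Grz B) (l : Grz C)
    (H : ∀ v, A.val v → B.val v → C.val v → D.val v) : Grz D :=
  Grz.mp C D (pl2 h k fun v => by simp only [MF.imp, MF.val]; have := H v; tauto) l

theorem kk (A B : MF) : Grz ((box (A.imp B)).imp ((box A).imp (box B))) :=
  Grz.sub (fun n => if n = 0 then A else B) _ Grz.axK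

theorem gg (A : MF) : Grz ((box ((box (A.imp (box A))).imp A)).imp A) :=
  Grz.sub (fun _ => A) _ Grz.axGrz

theorem mono {A B : MF} (h : Grz (A.imp B)) : Grz ((box A).imp (box B)) :=
  Grz.mp _ _ (kk A B) (Grz.nec _ h)

theorem mono2 {A B C : MF} (h : Grz (A.imp (B.imp C))) :
    Grz ((box A).imp ((box B).imp (box C))) :=
  pl2 (mono h) (kk B C) fun v => by simp only [MF.imp, MF.val]; tauto

theorem tt (A : MF) : Grz ((box A).imp A) :=
  pl2 (gg A) (mono (A := A) (B := (box (A.imp (box A))).imp A)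
    (Grz.taut _ fun v => by simp only [MF.imp, MF.val]; tauto))
    fun v => by simp only [MF.imp, MF.val]; tauto

theorem four (A : MF) : Grz ((box A).imp (box (box A))) := by
  set P := A.and ((box A).imp (box (box A))) with hP
  have h1 : Grz ((box P).imp (box A)) :=
    mono (Grz.taut _ fun v => by simp only [hP, MF.imp, MF.and, MF.val]; tauto)
  have h2 : Grz (A.imp ((P.imp (box P)).imp (box A))) :=
    pl1 h1 fun v => by simp only [hP, MF.imp, MF.and, MF.val]; tauto
  have h3 : Grz (A.imp ((box (P.imp (box P))).imp P)) :=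
    pl1 (mono2 h2) fun v => by simp only [hP, MF.imp, MF.and, MF.val]; tauto
  exact pl2 (mono h3) (gg P) fun v => by simp only [hP, MF.imp, MF.and, MF.val]; tauto

theorem dmono2 {A B C : MF} (h : Grz (A.imp (B.imp C))) :
    Grz ((box A).imp (B.dia.imp C.dia)) :=
  pl1 (mono2 (A := A) (B := neg C) (C := neg B)
    (pl1 h fun v => by simp only [MF.imp, MF.val]; tauto))
    fun v => by simp only [MF.imp, MF.dia, MF.val]; tauto

theorem dmono {B C : MF} (h : Grz (B.imp C)) : Grz (B.dia.imp C.dia) :=
  pl1 (mono (A := neg C) (B := neg B) (pl1 h fun v => by simp only [MF.imp, MF.val]; tauto))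
    fun v => by simp only [MF.imp, MF.dia, MF.val]; tauto

theorem dfour (A : MF) : Grz (A.dia.dia.imp A.dia) :=
  pl2 (four (neg A)) (mono (A := box (neg A)) (B := neg A.dia)
    (Grz.taut _ fun v => by simp only [MF.imp, MF.dia, MF.val]; tauto))
    fun v => by simp only [MF.imp, MF.dia, MF.val]; tauto

theorem dtt (A : MF) : Grz (A.imp A.dia) :=
  pl1 (tt (neg A)) fun v => by simp only [MF.imp, MF.dia, MF.val]; tauto

theorem diaD (A : MF) : Grz (box (A.imp (box A))).dia := by
  set D := box (A.imp (box A)) with hD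
  have h1 : Grz ((box (neg D)).imp A) :=
    pl2 (gg A) (mono (A := neg D) (B := D.imp A)
      (Grz.taut _ fun v => by simp only [MF.imp, MF.val]; tauto))
      fun v => by simp only [hD, MF.imp, MF.val]; tauto
  have h2 : Grz ((box (neg D)).imp (box A)) :=
    pl2 (four (neg D)) (mono h1) fun v => by simp only [MF.imp, MF.val]; tauto
  have h3 : Grz ((box (box A)).imp D) :=
    mono (Grz.taut _ fun v => by simp only [MF.imp, MF.val]; tauto)
  have h4 : Grz ((box (neg D)).imp D) :=
    pl3 h2 (four A) h3 fun v => by simp only [MF.imp, MF.val]; tauto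
  exact pl2 h4 (tt (neg D)) fun v => by simp only [MF.imp, MF.dia, MF.val]; tauto

theorem meet0 (A B : MF) : Grz ((box A.dia).imp ((box B.dia).imp (A.and B).dia)) := by
  have h1 : Grz ((box A).imp (B.dia.imp (A.and B).dia)) :=
    dmono2 (Grz.taut _ fun v => by simp only [MF.imp, MF.and, MF.val]; tauto)
  have h2 : Grz ((box B.dia).imp ((box A).dia.imp (A.and B).dia.dia)) :=
    dmono2 (pl1 h1 fun v => by simp only [MF.imp, MF.val]; tauto)
  have h3 : Grz ((box (A.imp (box A))).imp (A.dia.imp (box A).dia)) :=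
    dmono2 (Grz.taut _ fun v => by simp only [MF.imp, MF.val]; tauto)
  have h4 : Grz (A.dia.imp ((box B.dia).imp ((box (A.imp (box A))).imp (A.and B).dia))) :=
    pl3 h2 h3 (dfour (A.and B)) fun v => by simp only [MF.imp, MF.val]; tauto
  have h5 : Grz ((A.dia.and (box B.dia)).imp ((box (A.imp (box A))).imp (A.and B).dia)) :=
    pl1 h4 fun v => by simp only [MF.imp, MF.and, MF.val]; tauto
  have h6 : Grz ((box A.dia).imp ((box (box B.dia)).imp (box (A.dia.and (box B.dia))))) :=
    mono2 (Grz.taut _ fun v => by simp only [MF.imp, MF.and, MF.val]; tauto)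
  have h7 : Grz ((box (A.dia.and (box B.dia))).imp (A.and B).dia) :=
    pl3 (dmono2 h5) (diaD A) (dfour (A.and B)) fun v => by simp only [MF.imp, MF.val]; tauto
  exact pl3 h6 h7 (four B.dia) fun v => by simp only [MF.imp, MF.val]; tauto

theorem bd2 {A B C : MF} (h : Grz (A.imp (B.imp C))) :
    Grz ((box A.dia).imp ((box B.dia).imp (box C.dia))) := by
  have h1 : Grz ((A.and B).dia.imp C.dia) :=
    dmono (pl1 h fun v => by simp only [MF.imp, MF.and, MF.val]; tauto)
  have h2 : Grz ((box A.dia).imp ((box B.dia).imp C.dia)) :=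
    pl2 (meet0 A B) h1 fun v => by simp only [MF.imp, MF.val]; tauto
  exact pl3 (mono2 h2) (four A.dia) (four B.dia) fun v => by simp only [MF.imp, MF.val]; tauto

theorem tr_val (p : ℕ → ℕ) (v : MF → Prop) (φ : LF) :
    (tr p φ).val v ↔ φ.val fun a b => (F (.var (p a)) (.var (p b))).val v := by
  induction φ with
  | eps a b => rfl
  | neg φ ih => simp only [tr, MF.val, LF.val, ih]
  | or φ ψ ih ih' => simp only [tr, MF.val, LF.val, ih, ih']

theorem sound (p : ℕ → ℕ) {φ : LF} (h : L1 φ) : Grz (tr p φ) := by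
  induction h with
  | taut φ h => exact Grz.taut _ fun v => (tr_val p v φ).2 (h _)
  | mp φ ψ _ _ h k => exact Grz.mp _ _ h k
  | ax1 a b =>
    have h : Grz (box ((var (p a)).imp (var (p a))).dia) :=
      Grz.nec _ (Grz.mp _ _ (dtt _) (Grz.taut _ fun v => by simp only [MF.imp, MF.val]; tauto))
    exact pl1 h fun v => by
      simp only [tr, F, LF.imp, MF.imp, MF.and, MF.val]; tauto
  | ax2 a b c =>
    have h1 := bd2 (A := (var (p a)).imp (var (p b))) (B := (var (p b)).imp (var (p c)))
      (C := (var (p a)).imp (var (p c)))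
      (Grz.taut _ fun v => by simp only [MF.imp, MF.val]; tauto)
    have h2 := bd2 (A := (var (p c)).imp (var (p b))) (B := (var (p b)).imp (var (p a)))
      (C := (var (p c)).imp (var (p a)))
      (Grz.taut _ fun v => by simp only [MF.imp, MF.val]; tauto)
    exact pl2 h1 h2 fun v => by
      simp only [tr, F, LF.imp, LF.and, MF.imp, MF.and, MF.val]; tauto
  | ax3 a b c =>
    exact Grz.taut _ fun v => by
      simp only [tr, F, LF.imp, LF.and, MF.imp, MF.and, MF.val]; tauto

/-- Kripke truth on the frame with root `none` below the maximal points `some i` -/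
def sat (V : ℕ → Option ℕ → Prop) : MF → Option ℕ → Prop
  | .var n, w => V n w
  | .neg φ, w => ¬ sat V φ w
  | .or φ ψ, w => sat V φ w ∨ sat V ψ w
  | .box φ, w => ∀ u, (w = u ∨ w = none) → sat V φ u

theorem sat_val (V : ℕ → Option ℕ → Prop) (w : Option ℕ) (φ : MF) :
    φ.val (fun ψ => sat V ψ w) ↔ sat V φ w := by
  induction φ with
  | var n => rfl
  | neg φ ih => simp only [MF.val, sat, ih]
  | or φ ψ ih ih' => simp only [MF.val, sat, ih, ih']
  | box φ _ => rfl

theorem sat_subst (V : ℕ → Option ℕ → Prop) (σ : ℕ → MF) (φ : MF) :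
    ∀ w, sat V (φ.subst σ) w ↔ sat (fun n u => sat V (σ n) u) φ w := by
  induction φ with
  | var n => intro w; rfl
  | neg φ ih => intro w; simp only [MF.subst, sat, ih]
  | or φ ψ ih ih' => intro w; simp only [MF.subst, sat, ih, ih']
  | box φ ih => intro w; simp only [MF.subst, sat, ih]

theorem grz_sat {φ : MF} (h : Grz φ) : ∀ V w, sat V φ w := by
  induction h with
  | taut φ h => intro V w; exact (sat_val V w φ).1 (h _)
  | axK =>
    intro V w
    simp only [MF.imp, sat]
    by_contra hc
    push Not at hc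
    obtain ⟨h1, h2, u, hu, h3⟩ := hc
    have := h1 u hu
    have := h2 u hu
    tauto
  | axGrz =>
    intro V w
    simp only [MF.imp, sat]
    by_contra hc
    rw [not_or, not_not] at hc
    obtain ⟨h1, h2⟩ := hc
    have hs : ∀ i, (w = some i ∨ w = none) → V 0 (some i) := by
      intro i hi
      rcases h1 _ hi with h | h
      · by_contra hn
        apply h
        rintro u (rfl | hu)
        · exact Or.inl hn
        · cases hu
      · exact h
    rcases h1 w (Or.inl rfl) with h | h
    · apply h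
      intro u hu
      cases u with
      | none =>
        rcases hu with rfl | rfl <;> exact Or.inl h2
      | some i =>
        right
        rintro u (rfl | hu')
        · exact hs i hu
        · cases hu'
    · exact h2 h
  | mp φ ψ _ _ h k =>
    intro V w
    have := h V w
    have := k V w
    simp only [MF.imp, sat] at *
    tauto
  | nec φ _ h => intro V w u _; exact h V u
  | sub σ φ _ h => intro V w; exact (sat_subst V σ φ w).2 (h _ w)

theorem sat_bd (V : ℕ → Option ℕ → Prop) (φ : MF) :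
    sat V (box φ.dia) none ↔ ∀ i, sat V φ (some i) := by
  simp only [MF.dia, sat]
  constructor
  · intro h i
    by_contra hn
    apply h (some i) (Or.inr trivial)
    rintro u (rfl | hu)
    · exact hn
    · cases hu
  · intro h u _ hu
    cases u with
    | none => exact hu (some 0) (Or.inr rfl) (h 0)
    | some i => exact hu (some i) (Or.inl rfl) (h i)

/-- assignments satisfying the three axiom schemes -/
def Good (v : ℕ → ℕ → Prop) : Prop :=
  (∀ a b, v a b → v a a) ∧ (∀ a b c, v a b → v b c → v a c) ∧ (∀ a b c, v a b → v b c → v b a)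

theorem realize (p : ℕ → ℕ) (hp : Function.Injective p) (v : ℕ → ℕ → Prop) (hv : Good v) :
    ∃ V, ∀ φ : LF, sat V (tr p φ) none ↔ φ.val v := by
  obtain ⟨g1, g2, g3⟩ := hv
  let V : ℕ → Option ℕ → Prop := fun n w => ∃ a, p a = n ∧ v (w.getD a) a
  have hV : ∀ a w, V (p a) w ↔ v (w.getD a) a := fun a w =>
    ⟨fun ⟨b, hb, h⟩ => hp hb ▸ h, fun h => ⟨a, rfl, h⟩⟩
  refine ⟨V, fun φ => ?_⟩
  induction φ with
  | eps a b =>
    have e1 := sat_bd V ((var (p a)).imp (var (p b)))
    have e2 := sat_bd V ((var (p b)).imp (var (p a)))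
    have e : sat V (tr p (.eps a b)) none ↔ sat V (var (p a)) none ∧
        sat V (box ((var (p a)).imp (var (p b))).dia) none ∧
        (sat V (var (p b)) none → sat V (box ((var (p b)).imp (var (p a))).dia) none) := by
      generalize hX : box ((var (p a)).imp (var (p b))).dia = X
      generalize hY : box ((var (p b)).imp (var (p a))).dia = Y
      have : tr p (.eps a b) = (var (p a)).and (X.and ((var (p b)).imp Y)) := by
        rw [← hX, ← hY]; rfl
      rw [this]
      simp only [MF.and, MF.imp, sat]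
      have q : ∀ P Q R S : Prop, (¬(¬P ∨ ¬¬(¬Q ∨ ¬(¬R ∨ S))) ↔ P ∧ Q ∧ (R → S)) := by
        intro P Q R S; tauto
      exact q _ _ _ _
    rw [e, e1, e2]
    simp only [MF.imp, sat, hV, Option.getD_none, Option.getD_some, LF.val]
    constructor
    · rintro ⟨h1, h2, _⟩
      exact (h2 a).resolve_left (not_not.2 h1)
    · intro h
      refine ⟨g1 a b h, fun i => ?_, fun hb i => ?_⟩
      · by_cases hi : v i a
        · exact Or.inr (g2 _ _ _ hi h)
        · exact Or.inl hi
      · by_cases hi : v i b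
        · exact Or.inr (g2 _ _ _ hi (g3 _ _ _ h hb))
        · exact Or.inl hi
  | neg φ ih => simp only [tr, sat, LF.val, ih]
  | or φ ψ ih ih' => simp only [tr, sat, LF.val, ih, ih']

/-- a bound on the names in a formula -/
def LF.bd : LF → ℕ
  | .eps a b => max a b + 1
  | .neg φ => φ.bd
  | .or φ ψ => max φ.bd ψ.bd

theorem val_restrict (v : ℕ → ℕ → Prop) (N : ℕ) (φ : LF) (h : φ.bd ≤ N) :
    φ.val (fun a b => v a b ∧ a < N ∧ b < N) ↔ φ.val v := by
  induction φ with
  | eps a b =>
    simp only [LF.bd] at h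
    simp only [LF.val]
    exact ⟨fun k => k.1, fun k => ⟨k, by omega, by omega⟩⟩
  | neg φ ih => simp only [LF.val, ih h]
  | or φ ψ ih ih' =>
    simp only [LF.bd] at h
    simp only [LF.val, ih (by omega), ih' (by omega)]

theorem l1_list (l : List LF) : ∀ φ : LF, (∀ ψ ∈ l, L1 ψ) →
    (∀ v, (∀ ψ ∈ l, ψ.val v) → φ.val v) → L1 φ := by
  induction l with
  | nil => intro φ _ h; exact L1.taut _ fun v => h v (by simp)
  | cons χ l ih =>
    intro φ h k
    refine L1.mp χ φ (ih _ (fun ψ hψ => h ψ (by simp [hψ])) fun v hv => ?_) (h χ (by simp))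
    simp only [LF.imp, LF.val]
    by_cases hc : χ.val v
    · exact Or.inr (k v (by simpa [hc] using hv))
    · exact Or.inl hc

theorem complete (φ : LF) (h : ∀ v, Good v → φ.val v) : L1 φ := by
  let N := φ.bd
  let l : List LF := (List.range N).flatMap fun a => (List.range N).flatMap fun b =>
    (List.range N).flatMap fun c => [(LF.eps a b).imp (.eps a a),
      ((LF.eps a b).and (.eps b c)).imp (.eps a c), ((LF.eps a b).and (.eps b c)).imp (.eps b a)]
  refine l1_list l φ (fun ψ hψ => ?_) fun v hv => ?_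
  · simp only [l, List.mem_flatMap, List.mem_cons, List.not_mem_nil, or_false] at hψ
    obtain ⟨a, _, b, _, c, _, rfl | rfl | rfl⟩ := hψ
    · exact L1.ax1 a b
    · exact L1.ax2 a b c
    · exact L1.ax3 a b c
  · have hv' : ∀ a b c, a < N → b < N → c < N →
        (v a b → v a a) ∧ (v a b → v b c → v a c) ∧ (v a b → v b c → v b a) := by
      intro a b c ha hb hc
      have m : ∀ ψ ∈ [(LF.eps a b).imp (.eps a a), ((LF.eps a b).and (.eps b c)).imp (.eps a c),
          ((LF.eps a b).and (.eps b c)).imp (.eps b a)], ψ.val v := fun ψ hψ => hv ψ (by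
        simp only [l, List.mem_flatMap, List.mem_range]
        exact ⟨a, ha, b, hb, c, hc, hψ⟩)
      have m1 := m _ (List.mem_cons_self)
      have m2 := m _ (List.mem_cons_of_mem _ List.mem_cons_self)
      have m3 := m _ (List.mem_cons_of_mem _ (List.mem_cons_of_mem _ List.mem_cons_self))
      simp only [LF.imp, LF.and, LF.val] at m1 m2 m3
      tauto
    refine (val_restrict v N φ le_rfl).1 (h _ ⟨?_, ?_, ?_⟩)
    · rintro a b ⟨h1, ha, hb⟩
      exact ⟨(hv' a b b ha hb hb).1 h1, ha, ha⟩
    · rintro a b c ⟨h1, ha, hb⟩ ⟨h2, _, hc⟩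
      exact ⟨(hv' a b c ha hb hc).2.1 h1 h2, ha, hc⟩
    · rintro a b c ⟨h1, ha, hb⟩ ⟨h2, _, hc⟩
      exact ⟨(hv' a b c ha hb hc).2.2 h1 h2, hb, ha⟩

theorem result (p : ℕ → ℕ) (hp : Function.Injective p) (φ : LF) : L1 φ ↔ Grz (tr p φ) := by
  refine ⟨sound p, fun h => complete φ fun v hv => ?_⟩
  obtain ⟨V, hV⟩ := realize p hp v hv
  exact (hV φ).1 (grz_sat h V none)

end Pool.Agent.Results.MP_36ff06_lc.Embed
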